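import Mathlib

set_option autoImplicit false
open Filter Topology

namespace Pool.Agent.WeakLip

/-- A linear functional on all real functions which respects eventual bounds along an ultrafilter. -/
theorem exists_ulim {I : Type*} (U : Ultrafilter I) :
    ∃ L : (I → ℝ) →ₗ[ℝ] ℝ, ∀ (g : I → ℝ) (a b : ℝ),
      (∀ᶠ i in (U : Filter I), a ≤ g i ∧ g i ≤ b) → a ≤ L g ∧ L g ≤ b := by
  classical
  let V : Submodule ℝ (I → ℝ) :=
    { carrier := {g | ∃ x : ℝ, Tendsto g (U : Filter I) (𝓝 x)}
      add_mem' := by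
        rintro f g ⟨x, hx⟩ ⟨y, hy⟩
        exact ⟨x + y, hx.add hy⟩
      zero_mem' := ⟨0, tendsto_const_nhds⟩
      smul_mem' := by
        rintro c f ⟨x, hx⟩
        exact ⟨c • x, hx.const_smul c⟩ }
  have hlim : ∀ v : V, Tendsto (v : I → ℝ) (U : Filter I) (𝓝 (Classical.choose v.2)) :=
    fun v => Classical.choose_spec v.2
  let L0 : V →ₗ[ℝ] ℝ :=
    { toFun := fun v => Classical.choose v.2
      map_add' := by
        intro v w
        exact tendsto_nhds_unique (hlim (v + w)) ((hlim v).add (hlim w))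
      map_smul' := by
        intro c v
        exact tendsto_nhds_unique (hlim (c • v)) ((hlim v).const_smul c) }
  obtain ⟨L, hL⟩ := LinearMap.exists_extend L0
  refine ⟨L, ?_⟩
  intro g a b hab
  have hmem : Set.Icc a b ∈ (U : Filter I).map g := hab
  obtain ⟨x, hx, hle⟩ := (isCompact_Icc (a := a) (b := b)).ultrafilter_le_nhds (U.map g)
    (by simpa using hmem)
  have hgx : Tendsto g (U : Filter I) (𝓝 x) := hle
  have hgV : g ∈ V := ⟨x, hgx⟩
  have h1 : L g = x := by
    have : L g = L0 ⟨g, hgV⟩ := by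
      rw [← hL]; rfl
    rw [this]
    exact tendsto_nhds_unique (hlim ⟨g, hgV⟩) hgx
  rw [h1]
  exact ⟨hx.1, hx.2⟩

end Pool.Agent.WeakLip
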