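import Mathlib
import Pool.Agent.WeakLip.Ulim

set_option autoImplicit false
open Filter Topology

namespace Pool.Agent.WeakLip

/-- Finite sets of reals, with the fourth root of the Hamming metric. -/
@[ext] structure MM : Type where
  s : Finset ℝ

/-- Finite sets of reals, with the discrete metric. -/
@[ext] structure NN : Type where
  s : Finset ℝ

/-- the fourth root of the number of elements -/
noncomputable def rt (n : ℕ) : ℝ := Real.sqrt (Real.sqrt (n : ℝ))

theorem rt_nonneg (n : ℕ) : 0 ≤ rt n := Real.sqrt_nonneg _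

theorem rt_pow (n : ℕ) : rt n ^ 4 = n := by
  unfold rt
  have h : (Real.sqrt (Real.sqrt (n : ℝ))) ^ 4 = ((Real.sqrt (Real.sqrt (n : ℝ))) ^ 2) ^ 2 := by
    ring
  rw [h, Real.sq_sqrt (Real.sqrt_nonneg _), Real.sq_sqrt (Nat.cast_nonneg _)]

theorem rt_le_of (n : ℕ) (x : ℝ) (hx : 0 ≤ x) (h : (n : ℝ) ≤ x ^ 4) : rt n ≤ x := by
  have : rt n ^ 4 ≤ x ^ 4 := by rw [rt_pow]; exact h
  exact le_of_pow_le_pow_left₀ (by norm_num) hx this

theorem rt_mono {m n : ℕ} (h : m ≤ n) : rt m ≤ rt n := by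
  apply rt_le_of _ _ (rt_nonneg _)
  rw [rt_pow]
  exact_mod_cast h

theorem rt_add (m n : ℕ) : rt (m + n) ≤ rt m + rt n := by
  apply rt_le_of _ _ (add_nonneg (rt_nonneg _) (rt_nonneg _))
  have h1 := rt_pow m
  have h2 := rt_pow n
  have h3 := rt_nonneg m
  have h4 := rt_nonneg n
  push_cast
  rw [← h1, ← h2]
  have : (rt m + rt n) ^ 4 = rt m ^ 4 + rt n ^ 4 +
    (4 * rt m ^ 3 * rt n + 6 * rt m ^ 2 * rt n ^ 2 + 4 * rt m * rt n ^ 3) := by ring
  rw [this]
  have : 0 ≤ 4 * rt m ^ 3 * rt n + 6 * rt m ^ 2 * rt n ^ 2 + 4 * rt m * rt n ^ 3 := by positivity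
  linarith

theorem rt_zero : rt 0 = 0 := by simp [rt]

theorem one_le_rt {n : ℕ} (hn : 1 ≤ n) : 1 ≤ rt n := by
  have h1 : rt 1 = 1 := by simp [rt]
  rw [← h1]
  exact rt_mono hn

theorem rt_pos {n : ℕ} (hn : n ≠ 0) : 0 < rt n :=
  lt_of_lt_of_le one_pos (one_le_rt (Nat.one_le_iff_ne_zero.2 hn))

noncomputable instance instMM : MetricSpace MM where
  dist A B := rt (symmDiff A.s B.s).card
  dist_self A := by
    simp [rt_zero]
  dist_comm A B := by
    rw [symmDiff_comm]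
  dist_triangle A B C := by
    refine le_trans (rt_mono ?_) (rt_add _ _)
    refine le_trans ?_ (Finset.card_union_le _ _)
    exact Finset.card_le_card (symmDiff_triangle A.s B.s C.s)
  eq_of_dist_eq_zero := by
    intro A B h
    by_contra hne
    have hne' : (symmDiff A.s B.s).card ≠ 0 := by
      rw [Finset.card_ne_zero, Finset.nonempty_iff_ne_empty]
      intro h0
      exact hne (MM.ext (symmDiff_eq_bot.1 h0))
    have := rt_pos hne'
    rw [h] at this
    exact lt_irrefl _ this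

theorem distMM (A B : MM) : dist A B = rt (symmDiff A.s B.s).card := rfl

theorem one_le_distMM {A B : MM} (h : A ≠ B) : 1 ≤ dist A B := by
  rw [distMM]
  apply one_le_rt
  rw [Nat.one_le_iff_ne_zero, Finset.card_ne_zero, Finset.nonempty_iff_ne_empty]
  intro h0
  exact h (MM.ext (symmDiff_eq_bot.1 h0))

open Classical in
noncomputable instance instNN : MetricSpace NN where
  dist A B := if A = B then 0 else 1
  dist_self A := by simp
  dist_comm A B := by
    by_cases h : A = B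
    · simp [h]
    · have h' : ¬ B = A := fun h' => h h'.symm
      simp [h, h']
  dist_triangle A B C := by
    by_cases h1 : A = B
    · subst h1; simp
    · by_cases h2 : A = C
      · simp only [h2, if_true]
        positivity
      · simp only [h1, h2, if_false]
        have : (0 : ℝ) ≤ (if B = C then (0 : ℝ) else 1) := by positivity
        linarith
  eq_of_dist_eq_zero := by
    intro A B h
    by_contra hne
    simp [hne] at h

open Classical in
theorem distNN (A B : NN) : dist A B = if A = B then 0 else 1 := rfl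

theorem distNN_le (A B : NN) : dist A B ≤ 1 := by
  rw [distNN]; split_ifs <;> norm_num

theorem distNN_ne {A B : NN} (h : A ≠ B) : dist A B = 1 := by
  rw [distNN]; exact if_neg h

open Classical in
/-- sign of membership -/
noncomputable def sg (γ : ℝ) (A : Finset ℝ) : ℝ := if γ ∈ A then 1 else -1

theorem sg_sq (γ : ℝ) (A : Finset ℝ) : sg γ A * sg γ A = 1 := by
  unfold sg; split_ifs <;> norm_num

theorem sg_insert_self (γ : ℝ) (A : Finset ℝ) (h : γ ∉ A) : sg γ (insert γ A) = - sg γ A := by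
  simp [sg, h]

theorem sg_insert_ne {γ γ' : ℝ} (hne : γ' ≠ γ) (A : Finset ℝ) :
    sg γ' (insert γ A) = sg γ' A := by
  simp [sg, Finset.mem_insert, hne]

/-- cancellation over the cube -/
theorem sum_cancel (F : Finset ℝ) (γ : ℝ) (hγ : γ ∈ F) (h : Finset ℝ → ℝ)
    (hh : ∀ A, γ ∉ A → h (insert γ A) = - h A) : ∑ A ∈ F.powerset, h A = 0 := by
  classical
  obtain ⟨F', hF', rfl⟩ : ∃ F', γ ∉ F' ∧ insert γ F' = F :=
    ⟨F.erase γ, Finset.notMem_erase _ _, Finset.insert_erase hγ⟩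
  rw [Finset.sum_powerset_insert hF', ← Finset.sum_add_distrib]
  apply Finset.sum_eq_zero
  intro A hA
  have : γ ∉ A := fun h => hF' (Finset.mem_powerset.1 hA h)
  have h2 := hh A this
  convert add_neg_cancel (h A) using 2

theorem sum_sg_mul_sg (F : Finset ℝ) (γ γ' : ℝ) (hγ : γ ∈ F) (hne : γ' ≠ γ) :
    ∑ A ∈ F.powerset, sg γ A * sg γ' A = 0 := by
  apply sum_cancel F γ hγ
  intro A hA
  rw [sg_insert_self _ _ hA, sg_insert_ne hne]
  ring

theorem sum_sq (F F0 : Finset ℝ) (hF : F0 ⊆ F) (ε : ℝ → ℝ) (hε : ∀ γ, ε γ * ε γ = 1) :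
    ∑ A ∈ F.powerset, (∑ γ ∈ F0, ε γ * sg γ A) ^ 2 = (2 : ℝ) ^ F.card * F0.card := by
  have h1 : ∀ A : Finset ℝ, (∑ γ ∈ F0, ε γ * sg γ A) ^ 2 =
      ∑ γ ∈ F0, ∑ γ' ∈ F0, (ε γ * ε γ') * (sg γ A * sg γ' A) := by
    intro A
    rw [sq, Finset.sum_mul_sum]
    refine Finset.sum_congr rfl (fun γ _ => Finset.sum_congr rfl (fun γ' _ => ?_))
    ring
  simp only [h1]
  rw [Finset.sum_comm]
  have h2 : ∀ γ ∈ F0, ∑ A ∈ F.powerset, ∑ γ' ∈ F0, (ε γ * ε γ') * (sg γ A * sg γ' A) =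
      (2 : ℝ) ^ F.card := by
    intro γ hγ
    rw [Finset.sum_comm, Finset.sum_eq_single γ]
    · simp [hε, sg_sq, Finset.card_powerset]
    · intro γ' _ hne
      rw [← Finset.mul_sum, sum_sg_mul_sg F γ γ' (hF hγ) hne, mul_zero]
    · intro h; exact absurd hγ h
  rw [Finset.sum_congr rfl h2, Finset.sum_const, nsmul_eq_mul]
  ring

/-- The main estimate on the cube. -/
theorem cube_estimate (f : MM → ℝ) (K : ℝ) (hK0 : 0 ≤ K)
    (hK : ∀ A B : MM, |f A - f B| ≤ K * dist A B)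
    (F F0 : Finset ℝ) (hF : F0 ⊆ F) (n : ℕ) (hn : 1 ≤ n) (hcard : F0.card = n ^ 4)
    (ε : ℝ → ℝ) (hε : ∀ γ, ε γ * ε γ = 1) :
    |∑ A ∈ F.powerset, (∑ γ ∈ F0, ε γ * sg γ A) * f ⟨A⟩| ≤ (2 : ℝ) ^ F.card * (K * n ^ 3) := by
  classical
  have hn' : (0 : ℝ) < n := by exact_mod_cast hn
  have h0 : ∑ A ∈ F.powerset, (∑ γ ∈ F0, ε γ * sg γ A) * f ⟨A \ F0⟩ = 0 := by
    have h1 : ∀ A : Finset ℝ, (∑ γ ∈ F0, ε γ * sg γ A) * f ⟨A \ F0⟩ =
        ∑ γ ∈ F0, ε γ * (sg γ A * f ⟨A \ F0⟩) := by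
      intro A
      rw [Finset.sum_mul]
      exact Finset.sum_congr rfl (fun γ _ => by ring)
    simp only [h1]
    rw [Finset.sum_comm]
    apply Finset.sum_eq_zero
    intro γ hγ
    rw [← Finset.mul_sum, sum_cancel F γ (hF hγ), mul_zero]
    intro A hA
    have h3 : insert γ A \ F0 = A \ F0 := Finset.insert_sdiff_of_mem A hγ
    have h4 := sg_insert_self _ _ hA
    have h5 : (⟨insert γ A \ F0⟩ : MM) = ⟨A \ F0⟩ := by rw [h3]
    rw [← neg_mul, ← h4, ← h5]
  have h2 : ∑ A ∈ F.powerset, (∑ γ ∈ F0, ε γ * sg γ A) * f ⟨A⟩ =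
      ∑ A ∈ F.powerset, (∑ γ ∈ F0, ε γ * sg γ A) * (f ⟨A⟩ - f ⟨A \ F0⟩) := by
    simp only [mul_sub, Finset.sum_sub_distrib]
    rw [h0, sub_zero]
  rw [h2]
  have h3 : ∀ A ∈ F.powerset, |(∑ γ ∈ F0, ε γ * sg γ A) * (f ⟨A⟩ - f ⟨A \ F0⟩)| ≤
      ((∑ γ ∈ F0, ε γ * sg γ A) ^ 2 / n ^ 2 + n ^ 2) / 2 * (K * n) := by
    intro A _
    rw [abs_mul]
    apply mul_le_mul
    · have h4 : 0 ≤ (|∑ γ ∈ F0, ε γ * sg γ A| / n - n) ^ 2 := sq_nonneg _
      have h5 : (|∑ γ ∈ F0, ε γ * sg γ A| / n - n) ^ 2 =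
          (∑ γ ∈ F0, ε γ * sg γ A) ^ 2 / n ^ 2 + n ^ 2 - 2 * |∑ γ ∈ F0, ε γ * sg γ A| := by
        rw [sub_sq, div_pow, sq_abs]
        field_simp
        ring
      linarith
    · refine (hK _ _).trans (mul_le_mul_of_nonneg_left ?_ hK0)
      rw [distMM]
      apply rt_le_of _ _ hn'.le
      have h6 : (symmDiff A (A \ F0)).card ≤ F0.card := by
        apply Finset.card_le_card
        intro x hx
        rw [Finset.mem_symmDiff] at hx
        simp only [Finset.mem_sdiff] at hx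
        tauto
      calc ((symmDiff A (A \ F0)).card : ℝ) ≤ F0.card := by exact_mod_cast h6
        _ = (n : ℝ) ^ 4 := by rw [hcard]; push_cast; ring
    · exact abs_nonneg _
    · positivity
  refine (Finset.abs_sum_le_sum_abs _ _).trans ((Finset.sum_le_sum h3).trans ?_)
  rw [← Finset.sum_mul, ← Finset.sum_div, Finset.sum_add_distrib, ← Finset.sum_div,
    sum_sq F F0 hF ε hε, Finset.sum_const, Finset.card_powerset, hcard]
  push_cast
  rw [nsmul_eq_mul]
  push_cast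
  apply le_of_eq
  field_simp
  ring

end Pool.Agent.WeakLip
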