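import Mathlib
import Pool.Agent.WeakLip.Cube

set_option autoImplicit false
open Filter Topology

namespace Pool.Agent.WeakLip

/-- functionals bounded for the Lipschitz constant, on `MM` -/
def AdmM (φ : (MM → ℝ) →ₗ[ℝ] ℝ) : Prop :=
  ∃ C : ℝ, ∀ f : MM → ℝ, f ⟨∅⟩ = 0 → ∀ K : NNReal, LipschitzWith K f → |φ f| ≤ C * K

open Classical in
/-- coordinate function -/
noncomputable def cf (γ : ℝ) : MM → ℝ := fun A => if γ ∈ A.s then 1 else 0

theorem cf_zero (γ : ℝ) : cf γ ⟨∅⟩ = 0 := by simp [cf]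

theorem cf_lip (γ : ℝ) : LipschitzWith 1 (cf γ) := by
  apply LipschitzWith.of_dist_le_mul
  intro A B
  by_cases h : A = B
  · subst h; simp
  · have h1 := one_le_distMM h
    have h2 : dist (cf γ A) (cf γ B) ≤ 1 := by
      rw [Real.dist_eq]
      unfold cf
      split_ifs <;> simp
    simpa using h2.trans h1

theorem exists_sign (x : ℝ) : ∃ e : ℝ, e * e = 1 ∧ e * x = |x| := by
  rcases le_total 0 x with h | h
  · exact ⟨1, by norm_num, by rw [abs_of_nonneg h]; ring⟩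
  · exact ⟨-1, by norm_num, by rw [abs_of_nonpos h]; ring⟩

theorem sum_cf_lip (F : Finset ℝ) (n : ℕ) (hcard : F.card = n ^ 4) (ε : ℝ → ℝ)
    (hε : ∀ γ, ε γ * ε γ = 1) :
    LipschitzWith ((n ^ 3 : ℕ) : NNReal) (fun A : MM => ∑ γ ∈ F, ε γ * cf γ A) := by
  classical
  apply LipschitzWith.of_dist_le_mul
  intro A B
  rw [Real.dist_eq, ← Finset.sum_sub_distrib, distMM]
  have habs : ∀ γ, |ε γ| = 1 := by
    intro γ
    have h1 : |ε γ| * |ε γ| = 1 := by rw [abs_mul_abs_self]; exact hε γ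
    nlinarith [abs_nonneg (ε γ)]
  set m : ℕ := (F.filter (fun γ => γ ∈ symmDiff A.s B.s)).card with hm
  have h1 : |∑ γ ∈ F, (ε γ * cf γ A - ε γ * cf γ B)| ≤ (m : ℝ) := by
    refine (Finset.abs_sum_le_sum_abs _ _).trans ?_
    rw [hm, Finset.card_filter]
    push_cast
    apply Finset.sum_le_sum
    intro γ _
    rw [← mul_sub, abs_mul, habs, one_mul]
    unfold cf
    by_cases ha : γ ∈ A.s <;> by_cases hb : γ ∈ B.s <;> simp [ha, hb, Finset.mem_symmDiff]
  have h2 : (m : ℝ) ≤ (n : ℝ) ^ 4 := by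
    have : m ≤ F.card := Finset.card_filter_le _ _
    rw [hcard] at this
    exact_mod_cast this
  have h3 : (m : ℝ) ≤ rt (symmDiff A.s B.s).card ^ 4 := by
    rw [rt_pow]
    have : m ≤ (symmDiff A.s B.s).card :=
      Finset.card_le_card (fun x hx => (Finset.mem_filter.1 hx).2)
    exact_mod_cast this
  refine h1.trans ?_
  have hr := rt_nonneg (symmDiff A.s B.s).card
  set r := rt (symmDiff A.s B.s).card
  have h4 : (m : ℝ) ^ 4 ≤ ((n : ℝ) ^ 3 * r) ^ 4 := by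
    have hm0 : (0 : ℝ) ≤ m := Nat.cast_nonneg _
    calc (m : ℝ) ^ 4 = (m : ℝ) ^ 3 * m := by ring
      _ ≤ ((n : ℝ) ^ 4) ^ 3 * r ^ 4 := by
        apply mul_le_mul _ h3 hm0 (by positivity)
        exact pow_le_pow_left₀ hm0 h2 3
      _ = ((n : ℝ) ^ 3 * r) ^ 4 := by ring
  have h5 : (m : ℝ) ≤ (n : ℝ) ^ 3 * r := le_of_pow_le_pow_left₀ (by norm_num) (by positivity) h4
  have h6 : (((n ^ 3 : ℕ) : NNReal) : ℝ) = (n : ℝ) ^ 3 := by push_cast; ring
  rw [h6]
  exact h5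

/-- coordinate functions are weakly null -/
theorem finite_big (φ : (MM → ℝ) →ₗ[ℝ] ℝ) (hφ : AdmM φ) (δ : ℝ) (hδ : 0 < δ) :
    {γ : ℝ | δ ≤ |φ (cf γ)|}.Finite := by
  by_contra hinf
  have hinf : {γ : ℝ | δ ≤ |φ (cf γ)|}.Infinite := hinf
  obtain ⟨C, hC⟩ := hφ
  obtain ⟨n, hn⟩ := exists_nat_gt (C / δ)
  obtain ⟨F, hF, hcard⟩ := hinf.exists_subset_card_eq ((n + 1) ^ 4)
  choose ε hε1 hε2 using fun γ : ℝ => exists_sign (φ (cf γ))
  have h1 := sum_cf_lip F (n + 1) hcard ε hε1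
  have h2 := hC _ (by simp [cf_zero]) _ h1
  have h3 : (fun A : MM => ∑ γ ∈ F, ε γ * cf γ A) = ∑ γ ∈ F, ε γ • cf γ := by
    funext A
    simp [Finset.sum_apply]
  rw [h3, map_sum] at h2
  simp only [map_smul, smul_eq_mul, hε2] at h2
  have h4 : ((n + 1 : ℕ) ^ 4 : ℝ) * δ ≤ ∑ γ ∈ F, |φ (cf γ)| := by
    have h5 : ∑ _γ ∈ F, δ ≤ ∑ γ ∈ F, |φ (cf γ)| := Finset.sum_le_sum (fun γ hγ => hF hγ)
    rw [Finset.sum_const, nsmul_eq_mul, hcard] at h5
    push_cast at h5 ⊢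
    exact h5
  have h5 := (h4.trans (le_abs_self _)).trans h2
  push_cast at h5
  have hn1 : (0 : ℝ) < (n : ℝ) + 1 := by positivity
  have h6 : ((n : ℝ) + 1) * δ ≤ C := by
    have : ((n : ℝ) + 1) ^ 3 * (((n : ℝ) + 1) * δ) ≤ ((n : ℝ) + 1) ^ 3 * C := by nlinarith
    exact le_of_mul_le_mul_left this (by positivity)
  rw [div_lt_iff₀ hδ] at hn
  nlinarith

/-- The functionals. -/
theorem exists_functionals : ∃ Φ : ℝ → ((MM → ℝ) →ₗ[ℝ] ℝ),
    (∀ γ, AdmM (Φ γ)) ∧ (∀ γ, Φ γ (cf γ) = 1) ∧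
    (∀ (f : MM → ℝ) (K : NNReal), LipschitzWith K f → {γ | 1 / 2 < |Φ γ f|}.Finite) := by
  classical
  obtain ⟨L, hL⟩ := exists_ulim (Ultrafilter.of (atTop : Filter (Finset ℝ)))
  have hle : ((Ultrafilter.of (atTop : Filter (Finset ℝ)) : Ultrafilter (Finset ℝ)) :
      Filter (Finset ℝ)) ≤ atTop := Ultrafilter.of_le _
  let avg : ℝ → ((MM → ℝ) →ₗ[ℝ] (Finset ℝ → ℝ)) := fun γ =>
    { toFun := fun f F => 2 / 2 ^ F.card * ∑ A ∈ F.powerset, sg γ A * f ⟨A⟩
      map_add' := by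
        intro f g
        funext F
        simp only [Pi.add_apply, mul_add, Finset.sum_add_distrib]
      map_smul' := by
        intro c f
        funext F
        simp only [Pi.smul_apply, smul_eq_mul, RingHom.id_apply]
        rw [Finset.mul_sum, Finset.mul_sum, Finset.mul_sum]
        exact Finset.sum_congr rfl (fun A _ => by ring) }
  have havg : ∀ γ f F, avg γ f F = 2 / 2 ^ F.card * ∑ A ∈ F.powerset, sg γ A * f ⟨A⟩ :=
    fun _ _ _ => rfl
  -- the key bound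
  have key : ∀ (f : MM → ℝ) (K : NNReal), LipschitzWith K f → ∀ (F0 : Finset ℝ) (n : ℕ), 1 ≤ n →
      F0.card = n ^ 4 → ∀ ε : ℝ → ℝ, (∀ γ, ε γ * ε γ = 1) →
      |∑ γ ∈ F0, ε γ * L (avg γ f)| ≤ 2 * (K * n ^ 3) := by
    intro f K hf F0 n hn hcard ε hε
    have h1 : ∑ γ ∈ F0, ε γ * L (avg γ f) = L (∑ γ ∈ F0, ε γ • avg γ f) := by
      rw [map_sum]; simp
    rw [h1, abs_le]
    apply hL
    apply hle
    filter_upwards [Filter.eventually_ge_atTop F0] with F hF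
    rw [← abs_le]
    have h2 : (∑ γ ∈ F0, ε γ • avg γ f) F =
        2 / 2 ^ F.card * ∑ A ∈ F.powerset, (∑ γ ∈ F0, ε γ * sg γ A) * f ⟨A⟩ := by
      simp only [Finset.sum_apply, Pi.smul_apply, smul_eq_mul, havg]
      rw [Finset.mul_sum]
      simp only [Finset.sum_mul, Finset.mul_sum]
      rw [Finset.sum_comm]
      exact Finset.sum_congr rfl (fun A _ => Finset.sum_congr rfl (fun γ _ => by ring))
    rw [h2, abs_mul]
    have h3 := cube_estimate f K K.2 (fun A B => by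
      have := hf.dist_le_mul A B
      rwa [Real.dist_eq] at this) F F0 hF n hn hcard ε hε
    have h4 : |(2 : ℝ) / 2 ^ F.card| = 2 / 2 ^ F.card := abs_of_pos (by positivity)
    rw [h4]
    calc (2 : ℝ) / 2 ^ F.card * |∑ A ∈ F.powerset, (∑ γ ∈ F0, ε γ * sg γ A) * f ⟨A⟩|
        ≤ 2 / 2 ^ F.card * ((2 : ℝ) ^ F.card * (K * n ^ 3)) :=
          mul_le_mul_of_nonneg_left h3 (by positivity)
      _ = 2 * (K * n ^ 3) := by
          field_simp
  refine ⟨fun γ => L ∘ₗ avg γ, ?_, ?_, ?_⟩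
  · intro γ
    refine ⟨2, ?_⟩
    intro f _ K hf
    have := key f K hf {γ} 1 le_rfl (by simp) (fun _ => 1) (by simp)
    simpa using this
  · intro γ
    have h1 := hL (avg γ (cf γ)) 1 1 (by
      apply hle
      filter_upwards [Filter.eventually_ge_atTop {γ}] with F hF
      have hγ : γ ∈ F := hF (Finset.mem_singleton_self γ)
      have h2 : avg γ (cf γ) F = 1 := by
        rw [havg]
        have h3 : ∀ A : Finset ℝ, sg γ A * cf γ ⟨A⟩ = (1 / 2) * sg γ A + 1 / 2 := by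
          intro A
          unfold sg cf
          by_cases h : γ ∈ A
          · simp [h]; norm_num
          · simp [h]
        simp only [h3]
        rw [Finset.sum_add_distrib, ← Finset.mul_sum,
          sum_cancel F γ hγ (fun A => sg γ A) (fun A hA => by
            convert sg_insert_self γ A hA),
          Finset.sum_const, Finset.card_powerset]
        rw [nsmul_eq_mul]
        push_cast
        field_simp
        ring
      rw [h2]
      exact ⟨le_rfl, le_rfl⟩)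
    exact le_antisymm h1.2 h1.1
  · intro f K hf
    by_contra hinf
    have hinf : {γ | 1 / 2 < |(L ∘ₗ avg γ) f|}.Infinite := hinf
    obtain ⟨n, hn⟩ := exists_nat_gt (4 * (K : ℝ))
    obtain ⟨F, hF, hcard⟩ := hinf.exists_subset_card_eq ((n + 1) ^ 4)
    choose ε hε1 hε2 using fun γ : ℝ => exists_sign (L (avg γ f))
    have h1 := key f K hf F (n + 1) (by omega) hcard ε hε1
    simp only [hε2] at h1
    have h4 : ((n + 1 : ℕ) ^ 4 : ℝ) * (1 / 2) ≤ ∑ γ ∈ F, |L (avg γ f)| := by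
      have h5 : ∑ _γ ∈ F, (1 / 2 : ℝ) ≤ ∑ γ ∈ F, |L (avg γ f)| :=
        Finset.sum_le_sum (fun γ hγ => le_of_lt (hF hγ))
      rw [Finset.sum_const, nsmul_eq_mul, hcard] at h5
      push_cast at h5 ⊢
      exact h5
    have h5 := (h4.trans (le_abs_self _)).trans h1
    push_cast at h5
    have hn1 : (0 : ℝ) < (n : ℝ) + 1 := by positivity
    have h6 : ((n : ℝ) + 1) * (1 / 2) ≤ 2 * K := by
      have : ((n : ℝ) + 1) ^ 3 * (((n : ℝ) + 1) * (1 / 2)) ≤ ((n : ℝ) + 1) ^ 3 * (2 * K) := by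
        nlinarith
      exact le_of_mul_le_mul_left this (by positivity)
    nlinarith

end Pool.Agent.WeakLip
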