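import Mathlib

set_option autoImplicit false
open Filter Topology

namespace Pool.Agent.WeakLip

/-- `m` is at most `c` on functions bounded by one and supported in `A`. -/
def VarLe (m : (ℕ → ℝ) →ₗ[ℝ] ℝ) (A : Set ℕ) (c : ℝ) : Prop :=
  ∀ g : ℕ → ℝ, (∀ i, |g i| ≤ 1) → (∀ i, i ∉ A → g i = 0) → m g ≤ c

/-- Rosenthal's disjointification lemma. -/
theorem rosenthal (m : ℕ → (ℕ → ℝ) →ₗ[ℝ] ℝ) (η : ℝ) (hη : 0 ≤ η) :
    ∀ (p : ℕ) (f : ℕ → ℕ), Function.Injective f →
      (∀ j, VarLe (m (f j)) (Set.range f) (p * η)) →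
      ∃ g : ℕ → ℕ, Function.Injective g ∧ Set.range g ⊆ Set.range f ∧
        ∀ j, VarLe (m (g j)) (g '' {j}ᶜ) η := by
  intro p
  induction p with
  | zero =>
    intro f hf hv
    refine ⟨f, hf, le_rfl, ?_⟩
    intro j g hg hs
    have := hv j g hg (fun i hi => hs i (fun hi' => hi (Set.image_subset_range _ _ hi')))
    simp at this
    linarith
  | succ p ih =>
    intro f hf hv
    by_cases hcase : ∃ q : ℕ, ∀ t : ℕ,
        VarLe (m (f (Nat.pair q t))) ((fun t' => f (Nat.pair q t')) '' {t}ᶜ) η
    · obtain ⟨q, hq⟩ := hcase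
      refine ⟨fun t => f (Nat.pair q t), ?_, ?_, hq⟩
      · intro t t' h
        have := hf h
        rw [Nat.pair_eq_pair] at this
        exact this.2
      · rintro _ ⟨t, rfl⟩
        exact ⟨_, rfl⟩
    · push Not at hcase
      choose t ht using hcase
      have hinj : Function.Injective (fun q => f (Nat.pair q (t q))) := by
        intro q q' h
        have := hf h
        rw [Nat.pair_eq_pair] at this
        exact this.1
      obtain ⟨g, hg1, hg2, hg3⟩ := ih (fun q => f (Nat.pair q (t q))) hinj (by
        intro q g hg hs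
        have hw := ht q
        unfold VarLe at hw
        push Not at hw
        obtain ⟨h, h1, h2, h3⟩ := hw
        have hdisj : ∀ i, g i = 0 ∨ h i = 0 := by
          intro i
          by_contra hcon
          push Not at hcon
          have hi1 : i ∈ Set.range (fun q => f (Nat.pair q (t q))) := by
            by_contra hi
            exact hcon.1 (hs i hi)
          have hi2 : i ∈ (fun t' => f (Nat.pair q t')) '' {t q}ᶜ := by
            by_contra hi
            exact hcon.2 (h2 i hi)
          obtain ⟨q', hq'⟩ := hi1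
          obtain ⟨t', ht', hqt⟩ := hi2
          have : Nat.pair q t' = Nat.pair q' (t q') := hf (hqt.trans hq'.symm)
          rw [Nat.pair_eq_pair] at this
          obtain ⟨e1, e2⟩ := this
          subst e1
          exact ht' e2
        have := hv (Nat.pair q (t q)) (g + h) (by
          intro i
          rcases hdisj i with h0 | h0
          · simp [h0, h1 i]
          · simp [h0, hg i]) (by
          intro i hi
          have e1 : g i = 0 := hs i (by
            rintro ⟨q', hq'⟩
            exact hi ⟨_, hq'⟩)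
          have e2 : h i = 0 := h2 i (by
            rintro ⟨t', _, ht'⟩
            exact hi ⟨_, ht'⟩)
          simp [e1, e2])
        rw [map_add] at this
        push_cast at this
        linarith)
      refine ⟨g, hg1, ?_, hg3⟩
      intro i hi
      obtain ⟨q, hq⟩ := hg2 hi
      exact ⟨_, hq⟩

/-- Phillips' lemma. -/
theorem phillips (m : ℕ → (ℕ → ℝ) →ₗ[ℝ] ℝ) (C : ℝ)
    (hC : ∀ j (g : ℕ → ℝ), (∀ i, |g i| ≤ 1) → |m j g| ≤ C)
    (hm : ∀ g : ℕ → ℝ, (∀ i, |g i| ≤ 1) → Tendsto (fun j => m j g) atTop (𝓝 0)) :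
    Tendsto (fun j => m j (Pi.single j 1)) atTop (𝓝 0) := by
  by_contra hcon
  rw [Metric.tendsto_atTop] at hcon
  push Not at hcon
  obtain ⟨ε, hε, hfreq⟩ := hcon
  have hfr : ∃ᶠ j in atTop, ε ≤ |m j (Pi.single j 1)| := by
    rw [Filter.frequently_atTop]
    intro N
    obtain ⟨n, hn, h⟩ := hfreq N
    refine ⟨n, hn, ?_⟩
    simpa [Real.dist_eq] using h
  obtain ⟨f, hf, hfe⟩ := Filter.extraction_of_frequently_atTop hfr
  obtain ⟨p, hp⟩ := exists_nat_ge (C / (ε / 2))
  have hC' : C ≤ p * (ε / 2) := by
    rw [div_le_iff₀ (by positivity)] at hp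
    exact hp
  obtain ⟨g, hg1, hg2, hg3⟩ := rosenthal m (ε / 2) (by positivity) p f hf.injective (by
    intro j g hg _
    exact (le_abs_self _).trans ((hC _ g hg).trans hC'))
  classical
  let c : ℕ → ℝ := Set.indicator (Set.range g) 1
  have hc : ∀ i, |c i| ≤ 1 := by
    intro i
    by_cases hi : i ∈ Set.range g
    · simp [c, Set.indicator_of_mem hi]
    · simp [c, Set.indicator_of_notMem hi]
  have hbig : ∀ j, ε / 2 ≤ |m (g j) c| := by
    intro j
    let r : ℕ → ℝ := c - Pi.single (g j) 1
    have hr1 : ∀ i, |r i| ≤ 1 := by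
      intro i
      by_cases hi : i = g j
      · subst hi
        have : c (g j) = 1 := by simp [c]
        simp [r, this]
      · simp [r, Pi.single_eq_of_ne hi, hc i]
    have hr2 : ∀ i, i ∉ g '' {j}ᶜ → r i = 0 := by
      intro i hi
      by_cases hi' : i = g j
      · subst hi'
        have : c (g j) = 1 := by simp [c]
        simp [r, this]
      · have : i ∉ Set.range g := by
          rintro ⟨j', rfl⟩
          exact hi ⟨j', fun h => hi' (by rw [h]), rfl⟩
        simp [r, Pi.single_eq_of_ne hi', c, Set.indicator_of_notMem this]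
    have h1 := hg3 j r hr1 hr2
    have h2 := hg3 j (-r) (by intro i; simpa using hr1 i) (by
      intro i hi; simp [hr2 i hi])
    rw [map_neg] at h2
    have hsum : m (g j) c = m (g j) (Pi.single (g j) 1) + m (g j) r := by
      rw [← map_add]
      congr 1
      simp [r]
    have h3 : ε ≤ |m (g j) (Pi.single (g j) 1)| := by
      obtain ⟨j', hj'⟩ := hg2 ⟨j, rfl⟩
      rw [← hj']
      exact hfe j'
    have h4 : |m (g j) r| ≤ ε / 2 := abs_le.2 ⟨by linarith, h1⟩
    have h5 : |m (g j) (Pi.single (g j) 1)| ≤ |m (g j) c| + |m (g j) r| := by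
      have : m (g j) (Pi.single (g j) 1) = m (g j) c - m (g j) r := by rw [hsum]; ring
      rw [this]
      exact abs_sub _ _
    linarith
  have hlim := (hm c hc).comp (hg1.nat_tendsto_atTop)
  rw [Metric.tendsto_atTop] at hlim
  obtain ⟨N, hN⟩ := hlim (ε / 2) (by positivity)
  have := hN N le_rfl
  simp only [Function.comp, Real.dist_eq, sub_zero] at this
  linarith [hbig N]

end Pool.Agent.WeakLip
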