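import Mathlib
import Pool.Agent.WeakLip.Ulim
import Pool.Agent.WeakLip.Phillips

set_option autoImplicit false
open Filter Topology

namespace Pool.Agent.WeakLip

variable {S : Type*}

/-- A sequence of functions which is null for every functional bounded on bounded functions. -/
def WNull (y : ℕ → S → ℝ) : Prop :=
  ∀ L : (S → ℝ) →ₗ[ℝ] ℝ, (∃ C : ℝ, ∀ g : S → ℝ, (∀ s, |g s| ≤ 1) → |L g| ≤ C) →
    Tendsto (fun k => L (y k)) atTop (𝓝 0)

/-- Weakly null sequences of uniformly bounded functions cannot be bounded away from zero in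
modulus along a set of nested points. -/
theorem WNull.no_nested {y : ℕ → S → ℝ} (hy : WNull y) (hy1 : ∀ k s, |y k s| ≤ 1)
    {δ : ℝ} (hδ : 0 < δ) (l : ℕ → ℕ) (hl : StrictMono l) (s : ℕ → S)
    (hs : ∀ i n, i < n → δ < |y (l i) (s n)|) : False := by
  obtain ⟨L, hL⟩ := exists_ulim (Filter.hyperfilter ℕ)
  have hle : ((Filter.hyperfilter ℕ : Ultrafilter ℕ) : Filter ℕ) ≤ atTop := by
    rw [← Nat.cofinite_eq_atTop]
    exact Filter.hyperfilter_le_cofinite
  let L' : (S → ℝ) →ₗ[ℝ] ℝ := L ∘ₗ (LinearMap.funLeft ℝ ℝ s)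
  have hL' : ∀ g : S → ℝ, L' g = L (fun n => g (s n)) := fun g => rfl
  have h0 : Tendsto (fun k => L' (y k)) atTop (𝓝 0) := by
    refine hy L' ⟨1, ?_⟩
    intro g hg
    rw [hL', abs_le]
    exact hL _ (-1) 1 (Filter.Eventually.of_forall (fun n => abs_le.1 (hg (s n))))
  have h1 : ∀ i, δ ≤ |L' (y (l i))| := by
    intro i
    have hev : ∀ᶠ n in ((Filter.hyperfilter ℕ : Ultrafilter ℕ) : Filter ℕ),
        δ < |y (l i) (s n)| :=
      hle (Filter.eventually_atTop.2 ⟨i + 1, fun n hn => hs i n hn⟩)
    have hor : ∀ᶠ n in ((Filter.hyperfilter ℕ : Ultrafilter ℕ) : Filter ℕ),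
        (δ ≤ y (l i) (s n) ∧ y (l i) (s n) ≤ 1) ∨ (-1 ≤ y (l i) (s n) ∧ y (l i) (s n) ≤ -δ) := by
      filter_upwards [hev] with n hn
      have h2 := abs_le.1 (hy1 (l i) (s n))
      rcases lt_abs.1 hn with h | h
      · left; exact ⟨h.le, h2.2⟩
      · right; exact ⟨h2.1, by linarith⟩
    rw [Ultrafilter.eventually_or] at hor
    rcases hor with h | h
    · have := hL _ _ _ h
      rw [hL']
      exact this.1.trans (le_abs_self _)
    · have := hL _ _ _ h
      rw [hL']
      have h3 : δ ≤ -(L (fun n => y (l i) (s n))) := by linarith [this.2]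
      exact h3.trans (neg_le_abs _)
  have h2 := h0.comp hl.tendsto_atTop
  rw [Metric.tendsto_atTop] at h2
  obtain ⟨N, hN⟩ := h2 δ hδ
  have := hN N le_rfl
  simp only [Function.comp, Real.dist_eq, sub_zero] at this
  linarith [h1 N]

/-- Glue countably many functions living on pairwise disjoint sets. -/
theorem exists_glue (F : ℕ → Set S) (hF : ∀ i j, i ≠ j → Disjoint (F i) (F j)) (z : ℕ → S → ℝ)
    (hz : ∀ i s, |z i s| ≤ 1) :
    ∃ T : (ℕ → ℝ) →ₗ[ℝ] (S → ℝ), (∀ c : ℕ → ℝ, (∀ i, |c i| ≤ 1) → ∀ s, |T c s| ≤ 1) ∧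
      ∀ j, T (Pi.single j 1) = Set.indicator (F j) (z j) := by
  classical
  let idx : S → Option ℕ := fun s => if h : ∃ i, s ∈ F i then some (Classical.choose h) else none
  let T : (ℕ → ℝ) →ₗ[ℝ] (S → ℝ) :=
    { toFun := fun c s => match idx s with
        | some i => c i * z i s
        | none => 0
      map_add' := by
        intro c d
        funext s
        simp only [Pi.add_apply]
        cases idx s <;> simp [add_mul]
      map_smul' := by
        intro r c
        funext s
        simp only [Pi.smul_apply, smul_eq_mul, RingHom.id_apply]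
        cases idx s <;> simp [mul_assoc] }
  have hT : ∀ c s, T c s = match idx s with
        | some i => c i * z i s
        | none => 0 := fun c s => rfl
  refine ⟨T, ?_, ?_⟩
  · intro c hc s
    rw [hT]
    cases idx s with
    | none => simp
    | some i =>
      simp only [abs_mul]
      exact mul_le_one₀ (hc i) (abs_nonneg _) (hz i s)
  · intro j
    funext s
    rw [hT]
    by_cases hs : s ∈ F j
    · have hex : ∃ i, s ∈ F i := ⟨j, hs⟩
      have hidx : idx s = some j := by
        have h1 : idx s = some (Classical.choose hex) := by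
          simp only [idx, hex, dif_pos]
        rw [h1]
        congr 1
        by_contra hne
        exact Set.disjoint_left.1 (hF _ _ hne) (Classical.choose_spec hex) hs
      simp [hidx, Set.indicator_of_mem hs]
    · rw [Set.indicator_of_notMem hs]
      by_cases hex : ∃ i, s ∈ F i
      · have h1 : idx s = some (Classical.choose hex) := by
          simp only [idx, hex, dif_pos]
        have h2 := Classical.choose_spec hex
        have h3 : Classical.choose hex ≠ j := by
          intro h
          rw [h] at h2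
          exact hs h2
        simp [h1, Pi.single_eq_of_ne h3]
      · have h1 : idx s = none := by
          simp only [idx, hex, dif_neg, not_false_eq_true]
        simp [h1]

end Pool.Agent.WeakLip
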