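import Mathlib
import Pool.Agent.WeakLip.DP

set_option autoImplicit false
open Filter Topology

namespace Pool.Agent.WeakLip

variable {S : Type*}

/-- Weakly null sequences are limited in the space of bounded functions. -/
theorem dpstar (b : ℕ → (S → ℝ) →ₗ[ℝ] ℝ) (C : ℝ) (hC : 0 ≤ C)
    (hbC : ∀ k (g : S → ℝ), (∀ s, |g s| ≤ 1) → |b k g| ≤ C)
    (hb0 : ∀ g : S → ℝ, (∀ s, |g s| ≤ 1) → Tendsto (fun k => b k g) atTop (𝓝 0))
    (y : ℕ → S → ℝ) (hy1 : ∀ k s, |y k s| ≤ 1) (hy : WNull y) :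
    Tendsto (fun k => b k (y k)) atTop (𝓝 0) := by
  classical
  by_contra hcon
  rw [Metric.tendsto_atTop] at hcon
  push Not at hcon
  obtain ⟨ε, hε, hfreq⟩ := hcon
  have hfr : ∃ᶠ k in atTop, ε ≤ |b k (y k)| := by
    rw [Filter.frequently_atTop]
    intro N
    obtain ⟨n, hn, h⟩ := hfreq N
    exact ⟨n, hn, by simpa [Real.dist_eq] using h⟩
  have hne : (atTop ⊓ 𝓟 {k : ℕ | ε ≤ |b k (y k)|}).NeBot := by
    rw [← Filter.frequently_mem_iff_neBot]
    exact hfr
  let V : Ultrafilter ℕ := Ultrafilter.of (atTop ⊓ 𝓟 {k : ℕ | ε ≤ |b k (y k)|})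
  have hV : (V : Filter ℕ) ≤ atTop ⊓ 𝓟 {k : ℕ | ε ≤ |b k (y k)|} := Ultrafilter.of_le _
  have hVtop : (V : Filter ℕ) ≤ atTop := hV.trans inf_le_left
  have hVe : ∀ᶠ k in (V : Filter ℕ), ε ≤ |b k (y k)| := by
    have : {k : ℕ | ε ≤ |b k (y k)|} ∈ (V : Filter ℕ) :=
      hV (Filter.mem_inf_of_right (Filter.mem_principal_self _))
    exact this
  -- scaling of the bound
  have hscale : ∀ (k : ℕ) (g : S → ℝ) (r : ℝ), 0 < r → (∀ s, |g s| ≤ r) → |b k g| ≤ C * r := by
    intro k g r hr hg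
    have h1 := hbC k (r⁻¹ • g) (by
      intro s
      simp only [Pi.smul_apply, smul_eq_mul, abs_mul, abs_inv, abs_of_pos hr]
      rw [inv_mul_le_iff₀ hr]
      simpa using hg s)
    rw [map_smul, smul_eq_mul, abs_mul, abs_inv, abs_of_pos hr, inv_mul_le_iff₀ hr] at h1
    linarith [mul_comm C r]
  let δ : ℝ := ε / (2 * (C + 1))
  have hδ : 0 < δ := by positivity
  have hCδ : C * δ ≤ ε / 2 := by
    have : C * δ ≤ (C + 1) * δ := by nlinarith
    have h2 : (C + 1) * δ = ε / 2 := by
      simp only [δ]; field_simp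
    linarith
  let E : ℕ → Set S := fun k => {s | δ < |y k s|}
  let u : ℕ → S → ℝ := fun k => Set.indicator (E k) (y k)
  have hu1 : ∀ k s, |u k s| ≤ 1 := by
    intro k s
    by_cases hs : s ∈ E k
    · simp only [u, Set.indicator_of_mem hs]; exact hy1 k s
    · simp only [u, Set.indicator_of_notMem hs]; simp
  have hind : ∀ (A B : Set S) (v : S → ℝ), Disjoint A B →
      Set.indicator (A ∪ B) v = Set.indicator A v + Set.indicator B v := by
    intro A B v hAB
    exact Set.indicator_union_of_disjoint hAB v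
  -- good sets
  let Good : Set S → Prop := fun A => ∀ B, B ⊆ A →
    Tendsto (fun k => b k (Set.indicator B (u k))) (V : Filter ℕ) (𝓝 0)
  have hGood_mono : ∀ A B, B ⊆ A → Good A → Good B := fun A B h hA D hD => hA D (hD.trans h)
  have hGood_union : ∀ A B, Good A → Good B → Good (A ∪ B) := by
    intro A B hA hB D hD
    have h1 : D = (D ∩ A) ∪ (D \ A) := (Set.inter_union_sdiff D A).symm
    have h2 : ∀ k, b k (Set.indicator D (u k)) =
        b k (Set.indicator (D ∩ A) (u k)) + b k (Set.indicator (D \ A) (u k)) := by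
      intro k
      rw [← map_add, ← hind _ _ _ (Set.disjoint_left.2 (fun s hs hs' => hs'.2 hs.2)), ← h1]
    simp only [h2]
    have h3 := (hA (D ∩ A) Set.inter_subset_right).add (hB (D \ A) (by
      rintro s ⟨hs1, hs2⟩
      exact (hD hs1).resolve_left hs2))
    simpa using h3
  have hGood_empty : Good ∅ := by
    intro B hB
    have : B = ∅ := Set.subset_empty_iff.1 hB
    subst this
    have h0 : ∀ k, b k (Set.indicator ∅ (u k)) = 0 := by
      intro k
      rw [Set.indicator_empty]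
      exact map_zero (b k)
    simp only [h0]
    exact tendsto_const_nhds
  have hBad : ¬ Good Set.univ := by
    intro h
    have h1 := h Set.univ le_rfl
    simp only [Set.indicator_univ] at h1
    have h2 : ∀ᶠ k in (V : Filter ℕ), |b k (u k)| < ε / 2 := by
      have := (Metric.tendsto_nhds.1 h1) (ε / 2) (by positivity)
      simpa [Real.dist_eq] using this
    obtain ⟨k, hk1, hk2⟩ := (h2.and hVe).exists
    have h3 : |b k (y k - u k)| ≤ C * δ := by
      refine hscale k _ δ hδ ?_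
      intro s
      by_cases hs : s ∈ E k
      · simp only [u, Pi.sub_apply, Set.indicator_of_mem hs]; simp [hδ.le]
      · simp only [u, Pi.sub_apply, Set.indicator_of_notMem hs, sub_zero]
        exact not_lt.1 hs
    have h4 : |b k (y k)| ≤ |b k (y k - u k)| + |b k (u k)| := by
      have : b k (y k) = b k (y k - u k) + b k (u k) := by
        rw [← map_add]; simp
      rw [this]
      exact abs_add_le _ _
    linarith
  -- case b is impossible
  have hcase : ∃ A, ¬ Good A ∧ ∃ L : ℕ, ∀ l, L ≤ l → Good (A ∩ E l) := by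
    by_contra hno
    push Not at hno
    choose! nx hnx1 hnx2 using hno
    -- state recursion
    let st : ℕ → {A : Set S // ¬ Good A} × ℕ := fun n => Nat.rec (⟨Set.univ, hBad⟩, 0)
      (fun _ p => (⟨p.1.1 ∩ E (nx p.1.1 p.2), hnx2 p.1.1 p.1.2 p.2⟩, nx p.1.1 p.2 + 1)) n
    let l : ℕ → ℕ := fun n => nx (st n).1.1 (st n).2
    have hst : ∀ n, st (n + 1) = (⟨(st n).1.1 ∩ E (l n), hnx2 _ (st n).1.2 _⟩, l n + 1) :=
      fun n => rfl
    have hl : StrictMono l := by
      apply strictMono_nat_of_lt_succ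
      intro n
      have h1 : (st (n + 1)).2 ≤ l (n + 1) := hnx1 _ (st (n + 1)).1.2 _
      have h2 : (st (n + 1)).2 = l n + 1 := by rw [hst n]
      omega
    have hsub : ∀ n i, i < n → (st n).1.1 ⊆ E (l i) := by
      intro n
      induction n with
      | zero => intro i hi; omega
      | succ n ih =>
        intro i hi
        have h1 : (st (n + 1)).1.1 = (st n).1.1 ∩ E (l n) := by rw [hst n]
        rw [h1]
        rcases Nat.lt_succ_iff_lt_or_eq.1 hi with h | h
        · exact Set.inter_subset_left.trans (ih i h)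
        · subst h; exact Set.inter_subset_right
    have hnonempty : ∀ n, ((st n).1.1).Nonempty := by
      intro n
      rw [Set.nonempty_iff_ne_empty]
      intro h
      have h1 := (st n).1.2
      rw [h] at h1
      exact h1 hGood_empty
    choose s hs using hnonempty
    exact hy.no_nested hy1 hδ l hl s (fun i n hi => hsub n i hi (hs n))
  obtain ⟨A, hA, L, hL⟩ := hcase
  obtain ⟨B, hBA, hB⟩ : ∃ B, B ⊆ A ∧
      ¬ Tendsto (fun k => b k (Set.indicator B (u k))) (V : Filter ℕ) (𝓝 0) := by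
    by_contra h
    push Not at h
    exact hA h
  have hBL : ∀ l, L ≤ l → Good (B ∩ E l) := fun l hl =>
    hGood_mono _ _ (Set.inter_subset_inter_left _ hBA) (hL l hl)
  obtain ⟨η, hη, hBη⟩ : ∃ η : ℝ, 0 < η ∧
      ∀ᶠ k in (V : Filter ℕ), η ≤ |b k (Set.indicator B (u k))| := by
    rw [Metric.tendsto_nhds] at hB
    push Not at hB
    obtain ⟨η, hη, h⟩ := hB
    refine ⟨η, hη, ?_⟩
    simpa [Real.dist_eq] using h
  -- choice of the subsequence
  have hstep : ∀ (U : Set S), Good (B ∩ U) → ∀ n : ℕ, ∃ k : ℕ, n ≤ k ∧ L ≤ k ∧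
      η ≤ |b k (Set.indicator B (u k))| ∧ |b k (Set.indicator (B ∩ U) (u k))| ≤ η / 2 := by
    intro U hU n
    have h1 : ∀ᶠ k in (V : Filter ℕ), |b k (Set.indicator (B ∩ U) (u k))| < η / 2 := by
      have := (Metric.tendsto_nhds.1 (hU _ le_rfl)) (η / 2) (by positivity)
      simpa [Real.dist_eq] using this
    have h2 : ∀ᶠ k in (V : Filter ℕ), n ≤ k := hVtop (Filter.eventually_ge_atTop n)
    have h3 : ∀ᶠ k in (V : Filter ℕ), L ≤ k := hVtop (Filter.eventually_ge_atTop L)
    obtain ⟨k, ⟨⟨hk1, hk2⟩, hk3⟩, hk4⟩ := (((h1.and h2).and h3).and hBη).exists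
    exact ⟨k, hk2, hk3, hk4, hk1.le⟩
  choose! nx hnx1 hnx2 hnx3 hnx4 using hstep
  have hnext : ∀ (U : Set S), Good (B ∩ U) → ∀ n : ℕ, Good (B ∩ (U ∪ E (nx U n))) := by
    intro U hU n
    rw [Set.inter_union_distrib_left]
    exact hGood_union _ _ hU (hBL _ (hnx2 U hU n))
  let st : ℕ → {U : Set S // Good (B ∩ U)} × ℕ := fun n => Nat.rec
    (⟨∅, by rw [Set.inter_empty]; exact hGood_empty⟩, 0)
    (fun _ p => (⟨p.1.1 ∪ E (nx p.1.1 p.2), hnext p.1.1 p.1.2 p.2⟩, nx p.1.1 p.2 + 1)) n
  let k : ℕ → ℕ := fun n => nx (st n).1.1 (st n).2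
  let U : ℕ → Set S := fun n => (st n).1.1
  have hst2 : ∀ n, (st (n + 1)).2 = k n + 1 := fun n => rfl
  have hU : ∀ n, U (n + 1) = U n ∪ E (k n) := fun n => rfl
  have hk : StrictMono k := by
    apply strictMono_nat_of_lt_succ
    intro n
    have h1 : (st (n + 1)).2 ≤ k (n + 1) := hnx1 _ (st (n + 1)).1.2 _
    rw [hst2 n] at h1
    omega
  have hEU : ∀ i n, i < n → E (k i) ⊆ U n := by
    intro i n
    induction n with
    | zero => intro h; omega
    | succ n ih =>
      intro h
      rw [hU n]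
      rcases Nat.lt_succ_iff_lt_or_eq.1 h with h | h
      · exact (ih h).trans Set.subset_union_left
      · subst h; exact Set.subset_union_right
  have hk3 : ∀ n, η ≤ |b (k n) (Set.indicator B (u (k n)))| := fun n => hnx3 _ (st n).1.2 _
  have hk4 : ∀ n, |b (k n) (Set.indicator (B ∩ U n) (u (k n)))| ≤ η / 2 :=
    fun n => hnx4 _ (st n).1.2 _
  let F : ℕ → Set S := fun n => (B \ U n) ∩ E (k n)
  have hFlt : ∀ i j, i < j → Disjoint (F i) (F j) := by
    intro i j hij
    rw [Set.disjoint_left]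
    rintro s ⟨_, hs1⟩ ⟨⟨_, hs2⟩, _⟩
    exact hs2 (hEU i j hij hs1)
  have hF : ∀ i j, i ≠ j → Disjoint (F i) (F j) := by
    intro i j hij
    rcases lt_or_gt_of_ne hij with h | h
    · exact hFlt i j h
    · exact (hFlt j i h).symm
  have hkF : ∀ n, η / 2 ≤ |b (k n) (Set.indicator (F n) (y (k n)))| := by
    intro n
    have h1 : Set.indicator (F n) (y (k n)) = Set.indicator (B \ U n) (u (k n)) := by
      simp only [F, u]
      rw [Set.indicator_indicator]
    have h2 : Set.indicator B (u (k n)) =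
        Set.indicator (B ∩ U n) (u (k n)) + Set.indicator (B \ U n) (u (k n)) := by
      rw [← hind _ _ _ (Set.disjoint_left.2 (fun s hs hs' => hs'.2 hs.2)),
        Set.inter_union_sdiff]
    have h3 := hk3 n
    rw [h2, map_add] at h3
    have h4 := abs_add_le (b (k n) (Set.indicator (B ∩ U n) (u (k n))))
      (b (k n) (Set.indicator (B \ U n) (u (k n))))
    rw [h1]
    linarith [hk4 n]
  obtain ⟨T, hT1, hT2⟩ := exists_glue F hF (fun n => y (k n)) (fun n s => hy1 (k n) s)
  have hph := phillips (fun j => b (k j) ∘ₗ T) C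
    (fun j g hg => hbC _ _ (hT1 g hg))
    (fun g hg => (hb0 (T g) (hT1 g hg)).comp hk.tendsto_atTop)
  rw [Metric.tendsto_atTop] at hph
  obtain ⟨N, hN⟩ := hph (η / 2) (by positivity)
  have h5 := hN N le_rfl
  simp only [LinearMap.comp_apply, hT2, Real.dist_eq, sub_zero] at h5
  linarith [hkF N]

end Pool.Agent.WeakLip
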