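import Mathlib
import Pool.Agent.WeakLip.DPStar

set_option autoImplicit false
open Filter Topology

namespace Pool.Agent.WeakLip

variable {S : Type*}

theorem WNull.comp {y : ℕ → S → ℝ} (hy : WNull y) {φ : ℕ → ℕ} (hφ : Tendsto φ atTop atTop) :
    WNull (fun k => y (φ k)) := fun L hL => (hy L hL).comp hφ

/-- Limits of a sequence of vector valued functionals along a sequence of indices. -/
def limSpace {n : ℕ} (A : ℕ → (S → ℝ) →ₗ[ℝ] (Fin n → ℝ)) (φ : ℕ → ℕ) :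
    Submodule ℝ (Fin n → ℝ) where
  carrier := {w | ∃ x : S → ℝ, (∃ R : ℝ, ∀ s, |x s| ≤ R) ∧
    Tendsto (fun k => A (φ k) x) atTop (𝓝 w)}
  add_mem' := by
    rintro w w' ⟨x, ⟨R, hR⟩, hx⟩ ⟨x', ⟨R', hR'⟩, hx'⟩
    refine ⟨x + x', ⟨R + R', fun s => ?_⟩, ?_⟩
    · exact (abs_add_le _ _).trans (add_le_add (hR s) (hR' s))
    · simp only [map_add]
      exact hx.add hx'
  zero_mem' := ⟨0, ⟨0, by simp⟩, by simp only [map_zero]; exact tendsto_const_nhds⟩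
  smul_mem' := by
    rintro c w ⟨x, ⟨R, hR⟩, hx⟩
    refine ⟨c • x, ⟨|c| * R, fun s => ?_⟩, ?_⟩
    · simp only [Pi.smul_apply, smul_eq_mul, abs_mul]
      exact mul_le_mul_of_nonneg_left (hR s) (abs_nonneg _)
    · simp only [map_smul]
      exact hx.const_smul c

theorem limSpace_mono {n : ℕ} (A : ℕ → (S → ℝ) →ₗ[ℝ] (Fin n → ℝ)) (φ ψ : ℕ → ℕ)
    (hψ : Tendsto ψ atTop atTop) : limSpace A φ ≤ limSpace A (φ ∘ ψ) := by
  rintro w ⟨x, hR, hx⟩
  exact ⟨x, hR, hx.comp hψ⟩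

/-- The key interpolation lemma. -/
theorem star {n : ℕ} (A : ℕ → (S → ℝ) →ₗ[ℝ] (Fin n → ℝ)) (C : ℝ) (hC : 0 ≤ C)
    (hAC : ∀ k (g : S → ℝ), (∀ s, |g s| ≤ 1) → ‖A k g‖ ≤ C)
    (y : ℕ → S → ℝ) (hy1 : ∀ k s, |y k s| ≤ 1) (hy : WNull y) :
    ∃ x : S → ℝ, (∃ R : ℝ, ∀ s, |x s| ≤ R) ∧ ∃ φ : ℕ → ℕ, Tendsto φ atTop atTop ∧
      Tendsto (fun k => A (φ k) (x - y (φ k))) atTop (𝓝 0) := by
  classical
  -- maximal subspace
  obtain ⟨W, ⟨φ, hφ, rfl⟩, hmax⟩ := WellFounded.has_min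
    (wellFounded_gt (α := Submodule ℝ (Fin n → ℝ)))
    {W | ∃ φ : ℕ → ℕ, Tendsto φ atTop atTop ∧ W = limSpace A φ} ⟨_, id, tendsto_id, rfl⟩
  have hmax' : ∀ ψ : ℕ → ℕ, Tendsto ψ atTop atTop → limSpace A (φ ∘ ψ) = limSpace A φ := by
    intro ψ hψ
    have h1 := limSpace_mono A φ ψ hψ
    have h2 := hmax (limSpace A (φ ∘ ψ)) ⟨φ ∘ ψ, hφ.comp hψ, rfl⟩
    by_contra hne
    exact h2 (lt_of_le_of_ne h1 (fun h => hne h.symm))
  -- a limit of the values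
  obtain ⟨v, -, ψ, hψ, hv⟩ := tendsto_subseq_of_bounded
    (s := Metric.closedBall (0 : Fin n → ℝ) C) Metric.isBounded_closedBall
    (x := fun k => A (φ k) (y (φ k))) (by
      intro k
      rw [mem_closedBall_zero_iff]
      exact hAC _ _ (hy1 _))
  have hψ' := hψ.tendsto_atTop
  have hvW : v ∈ limSpace A φ := by
    by_contra hvn
    obtain ⟨c, hc1, hc2⟩ := Submodule.exists_dual_map_eq_bot_of_notMem hvn inferInstance
    have hc3 : ∀ w ∈ limSpace A φ, c w = 0 := by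
      intro w hw
      have : c w ∈ (limSpace A φ).map c := ⟨w, hw, rfl⟩
      rw [hc2] at this
      simpa using this
    have hcc : Continuous c := LinearMap.continuous_of_finiteDimensional c
    obtain ⟨D, hD0, hD⟩ : ∃ D : ℝ, 0 ≤ D ∧ ∀ w, |c w| ≤ D * ‖w‖ := by
      let c' : (Fin n → ℝ) →L[ℝ] ℝ := LinearMap.toContinuousLinearMap c
      exact ⟨‖c'‖, norm_nonneg _, fun w => c'.le_opNorm w⟩
    have hdp := dpstar (fun k => c ∘ₗ A (φ (ψ k))) (D * C) (by positivity) (by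
      intro k g hg
      exact (hD _).trans (mul_le_mul_of_nonneg_left (hAC _ g hg) hD0)) (by
      intro g hg
      apply Filter.tendsto_of_subseq_tendsto
      intro ns hns
      obtain ⟨w, -, θ, hθ, hw⟩ := tendsto_subseq_of_bounded
        (s := Metric.closedBall (0 : Fin n → ℝ) C) Metric.isBounded_closedBall
        (x := fun k => A (φ (ψ (ns k))) g) (by
          intro k
          rw [mem_closedBall_zero_iff]
          exact hAC _ _ hg)
      refine ⟨θ, ?_⟩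
      have hwW : w ∈ limSpace A (φ ∘ (ψ ∘ (ns ∘ θ))) := ⟨g, ⟨1, hg⟩, hw⟩
      rw [hmax' _ (hψ'.comp (hns.comp hθ.tendsto_atTop))] at hwW
      have h1 := (hcc.tendsto w).comp hw
      rw [hc3 w hwW] at h1
      exact h1) (fun k => y (φ (ψ k))) (fun k s => hy1 _ s) (hy.comp (hφ.comp hψ'))
    have h2 := (hcc.tendsto v).comp hv
    exact hc1 (tendsto_nhds_unique h2 hdp)
  obtain ⟨x, hR, hx⟩ := hvW
  refine ⟨x, hR, φ ∘ ψ, hφ.comp hψ', ?_⟩
  have h1 := (hx.comp hψ').sub hv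
  simp only [sub_self] at h1
  refine h1.congr ?_
  intro k
  simp [map_sub]

end Pool.Agent.WeakLip
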