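import Mathlib
import Pool.Agent.WeakLip.Star
import Pool.Agent.WeakLip.Functionals

set_option autoImplicit false

namespace Pool.Agent.WeakLip.Homeo

open Filter Topology Pool.Agent.WeakLip

/-- functionals bounded for the Lipschitz constant, on `NN` -/
def AdmN (φ : (NN → ℝ) →ₗ[ℝ] ℝ) : Prop :=
  ∃ C : ℝ, ∀ f : NN → ℝ, f ⟨∅⟩ = 0 → ∀ K : NNReal, LipschitzWith K f → |φ f| ≤ C * K

abbrev XM : Type := {f : MM → ℝ // (∃ K : NNReal, LipschitzWith K f) ∧ f ⟨∅⟩ = 0}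
abbrev XN : Type := {f : NN → ℝ // (∃ K : NNReal, LipschitzWith K f) ∧ f ⟨∅⟩ = 0}

/-- the weak topology on `XM` -/
def tM : TopologicalSpace XM :=
  ⨅ (φ : (MM → ℝ) →ₗ[ℝ] ℝ)
    (_ : ∃ C : ℝ, ∀ f : MM → ℝ, f ⟨∅⟩ = 0 → ∀ K : NNReal, LipschitzWith K f → |φ f| ≤ C * K),
    TopologicalSpace.induced (fun f : XM => φ f.1) (inferInstance : TopologicalSpace ℝ)

/-- the weak topology on `XN` -/
def tN : TopologicalSpace XN :=
  ⨅ (φ : (NN → ℝ) →ₗ[ℝ] ℝ)
    (_ : ∃ C : ℝ, ∀ f : NN → ℝ, f ⟨∅⟩ = 0 → ∀ K : NNReal, LipschitzWith K f → |φ f| ≤ C * K),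
    TopologicalSpace.induced (fun f : XN => φ f.1) (inferInstance : TopologicalSpace ℝ)

theorem continuous_evalM (φ : (MM → ℝ) →ₗ[ℝ] ℝ) (hφ : AdmM φ) :
    @Continuous XM ℝ tM _ (fun f => φ f.1) := by
  apply continuous_iInf_dom (i := φ)
  apply continuous_iInf_dom (i := hφ)
  exact continuous_induced_dom

theorem continuous_evalN (φ : (NN → ℝ) →ₗ[ℝ] ℝ) (hφ : AdmN φ) :
    @Continuous XN ℝ tN _ (fun f => φ f.1) := by
  apply continuous_iInf_dom (i := φ)
  apply continuous_iInf_dom (i := hφ)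
  exact continuous_induced_dom

/-- convergence in the weak topology of `XM` -/
theorem tendsto_M (x : ℕ → XM) (a : XM)
    (h : ∀ φ : (MM → ℝ) →ₗ[ℝ] ℝ, AdmM φ → Tendsto (fun k => φ (x k).1) atTop (𝓝 (φ a.1))) :
    Tendsto x atTop (@nhds _ tM a) := by
  unfold tM
  rw [nhds_iInf]
  refine tendsto_iInf.2 (fun φ => ?_)
  rw [nhds_iInf]
  refine tendsto_iInf.2 (fun hφ => ?_)
  rw [nhds_induced]
  exact tendsto_comap_iff.2 (h φ hφ)

/-- neighbourhoods in the weak topology of `XN` -/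
theorem nhds_N (O : Set XN) (a : XN) (hO : O ∈ @nhds _ tN a) :
    ∃ (n : ℕ) (b : Fin n → ((NN → ℝ) →ₗ[ℝ] ℝ)), (∀ j, AdmN (b j)) ∧
      ∀ y : XN, (∀ j, |b j y.1 - b j a.1| < 1) → y ∈ O := by
  classical
  have h1 : tN = ⨅ p : {φ : (NN → ℝ) →ₗ[ℝ] ℝ // AdmN φ},
      TopologicalSpace.induced (fun f : XN => p.1 f.1) (inferInstance : TopologicalSpace ℝ) := by
    rw [iInf_subtype]; rfl
  rw [h1, nhds_iInf, Filter.mem_iInf] at hO
  obtain ⟨I, hI, V, hV, rfl⟩ := hO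
  have h2 : ∀ i : I, ∃ c : ℝ, 0 < c ∧ ∀ y : XN, |i.1.1 y.1 - i.1.1 a.1| < c → y ∈ V i := by
    intro i
    have := hV i
    rw [nhds_induced, Filter.mem_comap] at this
    obtain ⟨t, ht, hsub⟩ := this
    obtain ⟨c, hc, hball⟩ := Metric.mem_nhds_iff.1 ht
    refine ⟨c, hc, fun y hy => hsub (hball ?_)⟩
    rw [Metric.mem_ball, Real.dist_eq]
    exact hy
  choose c hc1 hc2 using h2
  haveI : Finite I := hI
  obtain ⟨n, ⟨e⟩⟩ := Finite.exists_equiv_fin I
  refine ⟨n, fun j => (c (e.symm j))⁻¹ • (e.symm j).1.1, ?_, ?_⟩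
  · intro j
    obtain ⟨C, hC⟩ := (e.symm j).1.2
    refine ⟨(c (e.symm j))⁻¹ * C, ?_⟩
    intro f hf K hK
    rw [LinearMap.smul_apply, smul_eq_mul, abs_mul, abs_of_pos (inv_pos.2 (hc1 _)), mul_assoc]
    exact mul_le_mul_of_nonneg_left (hC f hf K hK) (inv_pos.2 (hc1 _)).le
  · intro y hy
    rw [Set.mem_iInter]
    intro i
    apply hc2 i y
    have h3 := hy (e i)
    simp only [Equiv.symm_apply_apply, LinearMap.smul_apply, smul_eq_mul, ← mul_sub] at h3
    rw [abs_mul, abs_of_pos (inv_pos.2 (hc1 i)), inv_mul_lt_iff₀ (hc1 i), mul_one] at h3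
    exact h3

/-- bounded functions on the discrete space are Lipschitz -/
theorem lip_of_bdd (g : NN → ℝ) (R : ℝ) (hR : ∀ s, |g s| ≤ R) :
    LipschitzWith (2 * R).toNNReal g := by
  apply LipschitzWith.of_dist_le_mul
  intro A B
  have hR0 : 0 ≤ R := (abs_nonneg _).trans (hR A)
  by_cases h : A = B
  · subst h; simp
  · rw [distNN_ne h, mul_one, Real.coe_toNNReal _ (by positivity), Real.dist_eq]
    have := abs_sub (g A) (g B)
    linarith [hR A, hR B]

theorem bdd_of_lip (g : NN → ℝ) (K : NNReal) (hg : LipschitzWith K g) (h0 : g ⟨∅⟩ = 0) (s : NN) :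
    |g s| ≤ K := by
  have h1 := hg.dist_le_mul s ⟨∅⟩
  rw [h0, Real.dist_eq, sub_zero] at h1
  refine h1.trans ?_
  have := mul_le_mul_of_nonneg_left (distNN_le s ⟨∅⟩) K.2
  simpa using this

/-- subtract the value at the base point -/
def PN : (NN → ℝ) →ₗ[ℝ] (NN → ℝ) where
  toFun g := fun s => g s - g ⟨∅⟩
  map_add' := by
    intro f g
    funext s
    simp only [Pi.add_apply]
    ring
  map_smul' := by
    intro c f
    funext s
    simp only [Pi.smul_apply, smul_eq_mul, RingHom.id_apply]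
    ring

theorem PN_apply (g : NN → ℝ) (s : NN) : PN g s = g s - g ⟨∅⟩ := rfl

theorem PN_base (g : NN → ℝ) : PN g ⟨∅⟩ = 0 := by rw [PN_apply]; ring

theorem PN_of_base (g : NN → ℝ) (h : g ⟨∅⟩ = 0) : PN g = g := by
  funext s; rw [PN_apply, h, sub_zero]

theorem PN_lip (g : NN → ℝ) (R : ℝ) (hR : ∀ s, |g s| ≤ R) :
    LipschitzWith (2 * R).toNNReal (PN g) := by
  apply LipschitzWith.of_dist_le_mul
  intro A B
  have := (lip_of_bdd g R hR).dist_le_mul A B
  have h2 : dist (PN g A) (PN g B) = dist (g A) (g B) := by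
    rw [Real.dist_eq, Real.dist_eq, PN_apply, PN_apply]
    congr 1
    ring
  rw [h2]
  exact this

/-- functionals bounded on bounded functions are admissible -/
theorem adm_of_bdd (L : (NN → ℝ) →ₗ[ℝ] ℝ) (C : ℝ)
    (hC : ∀ g : NN → ℝ, (∀ s, |g s| ≤ 1) → |L g| ≤ C) : AdmN L := by
  refine ⟨C, ?_⟩
  intro f hf K hK
  have hb := bdd_of_lip f K hK hf
  rcases eq_or_lt_of_le (K.2 : (0 : ℝ) ≤ K) with h0 | hpos
  · have h1 : f = 0 := by
      funext s
      have := hb s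
      have h2 : (K : ℝ) = 0 := h0.symm
      rw [h2] at this
      exact abs_nonpos_iff.1 this
    have h2 : (K : ℝ) = 0 := h0.symm
    rw [h1, map_zero, h2]
    simp
  · have hpos' : (0 : ℝ) < K := hpos
    have h1 := hC (((K : ℝ))⁻¹ • f) (by
      intro s
      simp only [Pi.smul_apply, smul_eq_mul, abs_mul, abs_inv, abs_of_pos hpos']
      rw [inv_mul_le_iff₀ hpos']
      simpa using hb s)
    rw [map_smul, smul_eq_mul, abs_mul, abs_inv, abs_of_pos hpos', inv_mul_le_iff₀ hpos'] at h1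
    linarith [mul_comm C (K : ℝ)]

theorem main (e : XM ≃ XN) (he1 : @Continuous XM XN tM tN e)
    (he2 : @Continuous XN XM tN tM e.symm) : False := by
  classical
  obtain ⟨Φ, hΦ1, hΦ2, hΦ3⟩ := exists_functionals
  let z : XM := ⟨0, ⟨0, LipschitzWith.const 0⟩, rfl⟩
  let c : ℝ → XM := fun γ => ⟨cf γ, ⟨1, cf_lip γ⟩, cf_zero γ⟩
  -- the pigeonhole property
  let Q : ℕ × ℕ → ℝ → Prop := fun p γ =>
    ∃ b : Fin p.1 → ((NN → ℝ) →ₗ[ℝ] ℝ),
      (∀ j, ∀ f : NN → ℝ, f ⟨∅⟩ = 0 → ∀ K : NNReal, LipschitzWith K f → |b j f| ≤ p.2 * K) ∧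
      (∀ y : XN, (∀ j, |b j y.1 - b j (e (c γ)).1| < 1) → 1 / 2 < Φ γ (e.symm y).1) ∧
      (∀ s, |(e (c γ)).1 s - (e z).1 s| ≤ p.2)
  have hQ : ∀ γ : ℝ, ∃ p, Q p γ := by
    intro γ
    have hcont : @Continuous XN ℝ tN _ (fun y => Φ γ (e.symm y).1) :=
      @Continuous.comp XN XM ℝ tN tM _ _ _ (continuous_evalM (Φ γ) (hΦ1 γ)) he2
    have hO : {y : XN | 1 / 2 < Φ γ (e.symm y).1} ∈ @nhds _ tN (e (c γ)) := by
      have h1 := @Continuous.tendsto XN ℝ tN _ _ hcont (e (c γ))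
      apply h1
      have h2 : Φ γ (e.symm (e (c γ))).1 = 1 := by
        rw [Equiv.symm_apply_apply]; exact hΦ2 γ
      simp only [h2]
      exact Ioi_mem_nhds (by norm_num)
    obtain ⟨n, b, hb1, hb2⟩ := nhds_N _ _ hO
    choose C hC using hb1
    obtain ⟨K1, hK1⟩ := (e (c γ)).2.1
    obtain ⟨K2, hK2⟩ := (e z).2.1
    obtain ⟨N, hN⟩ := exists_nat_ge (∑ j, |C j| + (K1 + K2 : ℝ))
    refine ⟨(n, N), b, ?_, hb2, ?_⟩
    · intro j f hf K hK
      refine (hC j f hf K hK).trans (mul_le_mul_of_nonneg_right ?_ K.2)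
      have h3 : |C j| ≤ ∑ j, |C j| :=
        Finset.single_le_sum (f := fun j => |C j|) (fun i _ => abs_nonneg _) (Finset.mem_univ j)
      have h4 := le_abs_self (C j)
      have h5 : (0 : ℝ) ≤ K1 + K2 := by positivity
      simp only
      linarith
    · intro s
      have h3 := bdd_of_lip _ K1 hK1 (e (c γ)).2.2 s
      have h4 := bdd_of_lip _ K2 hK2 (e z).2.2 s
      have h5 := abs_sub ((e (c γ)).1 s) ((e z).1 s)
      have h6 : (0 : ℝ) ≤ ∑ j, |C j| := Finset.sum_nonneg (fun j _ => abs_nonneg _)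
      simp only
      linarith
  obtain ⟨p, hp⟩ : ∃ p : ℕ × ℕ, {γ | Q p γ}.Infinite := by
    by_contra hcon
    push Not at hcon
    have h1 : (⋃ p : ℕ × ℕ, {γ | Q p γ}).Countable :=
      Set.countable_iUnion (fun p => (Set.not_infinite.1 (by simpa using hcon p)).countable)
    have h2 : (⋃ p : ℕ × ℕ, {γ | Q p γ}) = Set.univ := by
      rw [Set.eq_univ_iff_forall]
      intro γ
      obtain ⟨p, hp⟩ := hQ γ
      exact Set.mem_iUnion.2 ⟨p, hp⟩
    rw [h2] at h1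
    exact Cardinal.not_countable_real h1
  obtain ⟨n, R⟩ := p
  let γ : ℕ → ℝ := fun k => (hp.natEmbedding _ k : ℝ)
  have hγinj : Function.Injective γ := fun k k' h =>
    (hp.natEmbedding _).injective (Subtype.ext h)
  have hγQ : ∀ k, Q (n, R) (γ k) := fun k => (hp.natEmbedding _ k).2
  choose b hb1 hb2 hb3 using hγQ
  simp only at hb1 hb3
  -- the weakly null sequence
  let r : ℝ := (R : ℝ) + 1
  have hr : 0 < r := by positivity
  let y : ℕ → NN → ℝ := fun k => r⁻¹ • ((e (c (γ k))).1 - (e z).1)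
  have hy1 : ∀ k s, |y k s| ≤ 1 := by
    intro k s
    simp only [y, Pi.smul_apply, Pi.sub_apply, smul_eq_mul, abs_mul, abs_inv, abs_of_pos hr]
    rw [inv_mul_le_iff₀ hr, mul_one]
    refine (hb3 k s).trans ?_
    simp only [r]
    linarith
  have hc0 : Tendsto (fun k => c (γ k)) atTop (@nhds _ tM z) := by
    apply tendsto_M
    intro φ hφ
    have hz : φ z.1 = 0 := map_zero φ
    rw [hz, Metric.tendsto_atTop]
    intro δ hδ
    have hfin := finite_big φ hφ δ hδ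
    have hfin' : (γ ⁻¹' {γ : ℝ | δ ≤ |φ (cf γ)|}).Finite := hfin.preimage hγinj.injOn
    obtain ⟨N, hN⟩ := hfin'.bddAbove
    refine ⟨N + 1, fun k hk => ?_⟩
    rw [Real.dist_eq, sub_zero]
    by_contra hcon
    have : k ≤ N := hN (show γ k ∈ {γ : ℝ | δ ≤ |φ (cf γ)|} from not_lt.1 hcon)
    omega
  have hy : WNull y := by
    intro L hL
    obtain ⟨C, hC⟩ := hL
    have hLadm := adm_of_bdd L C hC
    have h1 : @Continuous XM ℝ tM _ (fun f => L (e f).1) :=
      @Continuous.comp XM XN ℝ tM tN _ _ _ (continuous_evalN L hLadm) he1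
    have h2 := (@Continuous.tendsto XM ℝ tM _ _ h1 z).comp hc0
    have h3 : Tendsto (fun k => r⁻¹ * (L (e (c (γ k))).1 - L (e z).1)) atTop (𝓝 0) := by
      have h4 := (h2.sub_const (L (e z).1)).const_mul r⁻¹
      simpa using h4
    refine h3.congr (fun k => ?_)
    simp only [y, map_smul, map_sub, smul_eq_mul]
  -- vector functionals
  let A : ℕ → (NN → ℝ) →ₗ[ℝ] (Fin n → ℝ) := fun k => LinearMap.pi (fun j => (b k j) ∘ₗ PN)
  have hA : ∀ k g j, A k g j = b k j (PN g) := fun _ _ _ => rfl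
  obtain ⟨x, ⟨Rx, hRx⟩, φ, hφ, hlim⟩ := star A (R * 2) (by positivity) (by
    intro k g hg
    rw [pi_norm_le_iff_of_nonneg (by positivity)]
    intro j
    rw [hA, Real.norm_eq_abs]
    have := hb1 k j (PN g) (PN_base g) _ (PN_lip g 1 hg)
    refine this.trans (le_of_eq ?_)
    rw [Real.coe_toNNReal _ (by norm_num)]
    ring) y hy1 hy
  -- the interpolating point
  let Y : XN := ⟨PN (r • x) + (e z).1, by
    obtain ⟨K2, hK2⟩ := (e z).2.1
    refine ⟨⟨(2 * (r * Rx)).toNNReal + K2, ?_⟩, ?_⟩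
    · refine (PN_lip (r • x) (r * Rx) ?_).add hK2
      intro s
      simp only [Pi.smul_apply, smul_eq_mul, abs_mul, abs_of_pos hr]
      exact mul_le_mul_of_nonneg_left (hRx s) hr.le
    · rw [Pi.add_apply, PN_base, (e z).2.2, add_zero]⟩
  have hlim2 : ∀ᶠ k in atTop, ‖A (φ k) (x - y (φ k))‖ < 1 / r := by
    have := (tendsto_zero_iff_norm_tendsto_zero.1 hlim)
    exact this.eventually (gt_mem_nhds (by positivity))
  have hbig : ∀ᶠ k in atTop, 1 / 2 < |Φ (γ (φ k)) (e.symm Y).1| := by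
    filter_upwards [hlim2] with k hk
    refine lt_of_lt_of_le (hb2 (φ k) Y ?_) (le_abs_self _)
    intro j
    have h1 : PN (r • (x - y (φ k))) = Y.1 - (e (c (γ (φ k)))).1 := by
      have h2 : r • y (φ k) = (e (c (γ (φ k)))).1 - (e z).1 := by
        simp only [y]
        rw [smul_smul, mul_inv_cancel₀ hr.ne', one_smul]
      rw [smul_sub, map_sub, h2, PN_of_base ((e (c (γ (φ k)))).1 - (e z).1) (by
        rw [Pi.sub_apply, (e (c (γ (φ k)))).2.2, (e z).2.2, sub_zero])]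
      simp only [Y]
      abel
    rw [← map_sub, ← h1, map_smul, map_smul, smul_eq_mul, abs_mul, abs_of_pos hr, ← hA]
    have h2 := norm_le_pi_norm (A (φ k) (x - y (φ k))) j
    rw [Real.norm_eq_abs] at h2
    have h3 : |A (φ k) (x - y (φ k)) j| < 1 / r := lt_of_le_of_lt h2 hk
    rw [lt_div_iff₀ hr] at h3
    linarith
  obtain ⟨K, hK⟩ := (e.symm Y).2.1
  have hfin := hΦ3 (e.symm Y).1 K hK
  have hfin' : (γ ⁻¹' {γ | 1 / 2 < |Φ γ (e.symm Y).1|}).Finite := hfin.preimage hγinj.injOn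
  obtain ⟨N, hN⟩ := hfin'.bddAbove
  obtain ⟨k, hk1, hk2⟩ := (hbig.and (hφ.eventually_gt_atTop N)).exists
  have h1 : φ k ≤ N := hN hk1
  omega

theorem dense_univM (A : Set MM) (hA : Dense A) : A = Set.univ := by
  rw [Set.eq_univ_iff_forall]
  intro a
  obtain ⟨b, hb1, hb2⟩ := Metric.dense_iff.1 hA a 1 one_pos
  rw [Metric.mem_ball] at hb1
  by_cases h : b = a
  · rw [← h]; exact hb2
  · exact absurd hb1 (not_lt.2 (one_le_distMM h))

theorem dense_univN (A : Set NN) (hA : Dense A) : A = Set.univ := by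
  rw [Set.eq_univ_iff_forall]
  intro a
  obtain ⟨b, hb1, hb2⟩ := Metric.dense_iff.1 hA a 1 one_pos
  rw [Metric.mem_ball] at hb1
  by_cases h : b = a
  · rw [← h]; exact hb2
  · rw [distNN_ne h] at hb1
    exact absurd hb1 (lt_irrefl _)

/-- the two underlying sets are the same -/
def equivMN : MM ≃ NN where
  toFun A := ⟨A.s⟩
  invFun A := ⟨A.s⟩
  left_inv _ := rfl
  right_inv _ := rfl

end Pool.Agent.WeakLip.Homeo
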